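import Mathlib
import Pool.Agent.V8H69.Words2

/-!
# Words defining group laws on all free nilpotent groups

Theorem `result`: a word `w` in two letters defines, by `x * y = w(x, y)`, a group operation on all
free nilpotent groups `F_n / γ_k(F_n)` (`n ≥ 2`, `k ≥ 1`) if and only if `w = ab` or `w = ba`.

Proof. Free groups are residually nilpotent, so the operation is associative on the free group of
rank 3. Write `w` as a product of syllables and let `u = w(a, b)`, `v = w(b, c)`. In
`w(u, c) = w(a, v)` the number of letters `c` on the left is the number `S` of letters `b` in `w`,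
and on the right it is the sum of the numbers of letters `c` in the powers `v ^ j`, one power for
each syllable `b ^ j` of `w`; every such power contains at least as many letters `c` as `v`,
namely `S`. Hence `w` has at most one syllable in `b`, and in the same way at most one in `a`. The
abelian quotients show that both exponents are `1`.
-/

set_option autoImplicit false

namespace Pool.Agent.Results.MP_c4ae4c_al.OnlyMultiplication

open Pool.Agent.V8H69.Words Pool.Agent.H476RA.FR

/-- The value `w(x, y)` of a word `w` in the free group on two letters `a = of 0`, `b = of 1`. -/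
def value {G : Type} [Group G] (w : FreeGroup (Fin 2)) (x y : G) : G := FreeGroup.lift ![x, y] w

/-- The binary operation `op` makes the set `G` into a group: it is associative, has a two-sided
identity element, and every element has a two-sided inverse. -/
def IsGroupLaw {G : Type} (op : G → G → G) : Prop :=
  (∀ x y z, op (op x y) z = op x (op y z)) ∧
    ∃ e, (∀ x, op e x = x ∧ op x e = x) ∧ ∀ x, ∃ y, op x y = e ∧ op y x = e

/-- The free nilpotent group `F_n / γ_{c+1}(F_n)` of rank `n` and class `c`
(`lowerCentralSeries c` is `γ_{c+1}`). -/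
abbrev FreeNilpotent (n c : ℕ) : Type :=
  FreeGroup (Fin n) ⧸ (⊤ : Subgroup (FreeGroup (Fin n))).lowerCentralSeries c

/-- Property (N): for all `n ≥ 2` and all `k = c + 1 ≥ 1` the operation `x * y = w(x, y)` is a
group law on `F_n / γ_k(F_n)`. -/
def PropertyN (w : FreeGroup (Fin 2)) : Prop :=
  ∀ n : ℕ, 2 ≤ n → ∀ c : ℕ, IsGroupLaw (fun x y : FreeNilpotent n c => value w x y)

theorem value_map {G H : Type} [Group G] [Group H] (f : G →* H) (w : FreeGroup (Fin 2)) (x y : G) :
    f (value w x y) = value w (f x) (f y) := by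
  unfold value
  have : f.comp (FreeGroup.lift ![x, y]) = FreeGroup.lift ![f x, f y] := by
    apply FreeGroup.ext_hom
    intro i
    fin_cases i <;> simp
  rw [← this]
  rfl

theorem isGroupLaw_mul (G : Type) [Group G] : IsGroupLaw (fun x y : G => x * y) :=
  ⟨mul_assoc, 1, fun x => ⟨one_mul x, mul_one x⟩, fun x => ⟨x⁻¹, mul_inv_cancel x, inv_mul_cancel x⟩⟩

theorem isGroupLaw_op (G : Type) [Group G] : IsGroupLaw (fun x y : G => y * x) :=
  ⟨fun x y z => (mul_assoc z y x).symm, 1, fun x => ⟨mul_one x, one_mul x⟩,
    fun x => ⟨x⁻¹, inv_mul_cancel x, mul_inv_cancel x⟩⟩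

/-- associativity in the free group of rank 3 -/
theorem assoc_free (w : FreeGroup (Fin 2)) (h : PropertyN w) :
    FreeGroup.lift ![FreeGroup.lift ![(FreeGroup.of 0 : FreeGroup (Fin 3)),
        FreeGroup.of 1] w, FreeGroup.of 2] w =
      FreeGroup.lift ![FreeGroup.of 0, FreeGroup.lift ![FreeGroup.of 1, FreeGroup.of 2] w] w := by
  rw [← mul_inv_eq_one]
  apply free_resid_nil
  intro c
  have h1 := (h 3 (by norm_num) c).1
    (QuotientGroup.mk' _ (FreeGroup.of 0)) (QuotientGroup.mk' _ (FreeGroup.of 1))
    (QuotientGroup.mk' _ (FreeGroup.of 2))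
  simp only [← value_map] at h1
  rw [← QuotientGroup.eq_one_iff, QuotientGroup.mk_mul, QuotientGroup.mk_inv, mul_inv_eq_one]
  exact h1

/-- sum of the exponents of the letter `k` -/
def χ (k : Fin 2) : FreeGroup (Fin 2) →* Multiplicative ℤ :=
  FreeGroup.lift fun i => if i = k then Multiplicative.ofAdd 1 else 1

theorem value_int (w : FreeGroup (Fin 2)) (x y : Multiplicative ℤ) :
    (value w x y).toAdd = (χ 0 w).toAdd * x.toAdd + (χ 1 w).toAdd * y.toAdd := by
  unfold value
  have : FreeGroup.lift ![x, y] = (AddMonoidHom.toMultiplicative (AddMonoidHom.mulRight x.toAdd)).comp (χ 0) *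
      (AddMonoidHom.toMultiplicative (AddMonoidHom.mulRight y.toAdd)).comp (χ 1) := by
    apply FreeGroup.ext_hom
    intro i
    fin_cases i <;> simp [χ]
  rw [this]
  simp [MonoidHom.mul_apply, mul_comm]

/-- both exponent sums are 1 -/
theorem expo (w : FreeGroup (Fin 2)) (h : PropertyN w) :
    (χ 0 w).toAdd = 1 ∧ (χ 1 w).toAdd = 1 := by
  obtain ⟨-, e, he, -⟩ := h 2 le_rfl 1
  -- the homomorphism of `F_2 / γ_2` to `ℤ` with `a ↦ 1`, `b ↦ 0`
  let q : FreeNilpotent 2 1 →* Multiplicative ℤ := QuotientGroup.lift _ (χ 0) (by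
    intro x hx
    have h1 : (⊤ : Subgroup (FreeGroup (Fin 2))).lowerCentralSeries 1 ≤ (χ 0).ker := by
      rw [Subgroup.lowerCentralSeries_succ, Subgroup.commutator_le]
      intro g₁ _ g₂ _
      rw [MonoidHom.mem_ker, map_commutatorElement, commutatorElement_eq_one_iff_mul_comm]
      exact mul_comm _ _
    exact h1 hx)
  have h1 := fun x => congrArg (fun t => (q t).toAdd) (he x).1
  have h2 := fun x => congrArg (fun t => (q t).toAdd) (he x).2
  simp only [value_map, value_int] at h1 h2
  have h3 := h1 1
  have h4 := h2 1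
  have h5 := h1 (QuotientGroup.mk' _ (FreeGroup.of 0))
  have h6 := h2 (QuotientGroup.mk' _ (FreeGroup.of 0))
  have h7 : (q (QuotientGroup.mk' _ (FreeGroup.of 0))).toAdd = 1 := by
    show ((χ 0) (FreeGroup.of 0)).toAdd = 1
    simp [χ]
  rw [h7] at h5 h6
  simp only [map_one, toAdd_one, mul_zero, add_zero, zero_add] at h3 h4
  rw [h3] at h5
  rw [h4] at h6
  constructor <;> linarith

theorem σ_cons (k : Fin 2) (s : Fin 2 × ℤ) (L : List (Fin 2 × ℤ)) :
    σ k (s :: L) = (if s.1 = k then 1 else 0) + σ k L := by simp [σ]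

/-- **Theorem.** A word `w` in the free group on `a, b` has property (N), i.e. `x * y = w(x, y)` is
a group law on `F_n / γ_k(F_n)` for all `n ≥ 2` and `k ≥ 1`, if and only if `w = ab` or
`w = ba`. -/
theorem result (w : FreeGroup (Fin 2)) :
    PropertyN w ↔ w = FreeGroup.of 0 * FreeGroup.of 1 ∨ w = FreeGroup.of 1 * FreeGroup.of 0 := by
  constructor
  · intro h
    obtain ⟨e0, e1⟩ := expo w h
    have hw1 : w ≠ 1 := by
      rintro rfl
      simp at e0
    obtain ⟨L, hL, h0, hpr⟩ := exists_syll w
    obtain ⟨s0, s1⟩ := key w hw1 L hL h0 hpr (assoc_free w h)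
    match L, hL, h0, hpr, s0, s1 with
    | [], _, _, hpr, _, _ => exact absurd (by rw [← hpr]; simp [pr]) hw1
    | [s], _, _, hpr, _, _ =>
      exfalso
      have hpr' : w = FreeGroup.of s.1 ^ s.2 := by rw [← hpr]; simp [pr]
      rw [hpr'] at e0 e1
      obtain ⟨k, n⟩ := s
      fin_cases k <;> simp [χ] at e0 e1
    | [s, t], hL, _, hpr, s0, s1 =>
      have hpr' : w = FreeGroup.of s.1 ^ s.2 * FreeGroup.of t.1 ^ t.2 := by rw [← hpr]; simp [pr]
      have hne : s.1 ≠ t.1 := (List.isChain_cons_cons.1 hL).1
      rw [hpr'] at e0 e1 ⊢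
      obtain ⟨k, n⟩ := s
      obtain ⟨l, m⟩ := t
      fin_cases k <;> fin_cases l <;> simp [χ] at e0 e1 hne ⊢
      · left; rw [e0, e1]; simp
      · right; rw [e0, e1]; simp
    | s :: t :: r :: L, hL, _, _, s0, s1 =>
      exfalso
      have hne1 : s.1 ≠ t.1 := (List.isChain_cons_cons.1 hL).1
      have hne2 : t.1 ≠ r.1 := (List.isChain_cons_cons.1 (List.isChain_cons_cons.1 hL).2).1
      rw [σ_cons, σ_cons, σ_cons] at s0 s1
      have : s.1 = r.1 := by omega
      rcases (by omega : s.1 = 0 ∨ s.1 = 1) with h4 | h4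
      · have h5 : r.1 = 0 := by omega
        rw [if_pos h4, if_pos h5] at s0
        omega
      · have h5 : r.1 = 1 := by omega
        rw [if_pos h4, if_pos h5] at s1
        omega
  · rintro (rfl | rfl) n _ c
    · have : (fun x y : FreeNilpotent n c => value (FreeGroup.of 0 * FreeGroup.of 1) x y) =
          fun x y => x * y := by
        funext x y
        simp [value]
      rw [this]
      exact isGroupLaw_mul _
    · have : (fun x y : FreeNilpotent n c => value (FreeGroup.of 1 * FreeGroup.of 0) x y) =
          fun x y => y * x := by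
        funext x y
        simp [value]
      rw [this]
      exact isGroupLaw_op _

end Pool.Agent.Results.MP_c4ae4c_al.OnlyMultiplication
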